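import Pool.Agent.MP_66cee2_co.D.SpecT

/-
The topological theorem with a continuum in the first step: definitions, rows, induction.
-/

namespace Pool.Agent.MP_66cee2_co.U

open Set Metric Module Pool.Agent.MP_66cee2_co.X Pool.Agent.MP_66cee2_co.D

/-! ### Algebra -/

/-- `W` is orthogonal to about `c` orthogonal positive vectors. -/
def Sc {n : ℕ} (c : ℕ) (W : Submodule ℝ (Ix n → ℝ)) : Prop :=
  ∃ (N : ℕ) (u : Fin N → Ix n → ℝ), (∀ i, 0 < lz (u i) (u i)) ∧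
    (∀ i j, i ≠ j → lz (u i) (u j) = 0) ∧ (∀ w ∈ W, ∀ i, lz w (u i) = 0) ∧
    (c ≤ N ∨ (c ≤ N + 1 ∧ ∀ w ∈ W, 0 ≤ lz w w))

/-- the orthogonal complement. -/
def prp {n : ℕ} (P : Submodule ℝ (Ix n → ℝ)) : Submodule ℝ (Ix n → ℝ) where
  carrier := {w | ∀ v ∈ P, lz w v = 0}
  add_mem' := fun {a b} ha hb v hv =>
    (add_dotProduct a b _).trans ((congrArg₂ _ (ha v hv) (hb v hv)).trans (add_zero 0))
  zero_mem' := fun _ _ => zero_dotProduct _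
  smul_mem' := fun c a ha v hv =>
    (smul_dotProduct c a _).trans ((congrArg _ (ha v hv)).trans (smul_zero c))

/-- row UAlg: one step of the count, and the final count. -/
def SAlg : Prop :=
  (∀ (n c : ℕ) (W : Submodule ℝ (Ix n → ℝ)) (q q' : Ix n → ℝ), Sc c W → q ∈ W → q' ∈ W →
    0 < lz q q → 0 < lz q' q' → ¬ Eqv W q' q → Sc (c + 2) (nxt W q q')) ∧
  ∀ (n c : ℕ) (W : Submodule ℝ (Ix n → ℝ)) (w : Ix n → ℝ), Sc c W → w ∈ W → 0 < lz w w →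
    c ≤ n + 1

/-- row UPrp: the complement of a subspace of dimension `c`. -/
def SPrp : Prop :=
  ∀ (n c : ℕ) (P : Submodule ℝ (Ix n → ℝ)), c ≤ finrank ℝ P → Sc c (prp P)

/-! ### Topology -/

/-- the cube of side two. -/
def Cube (d : ℕ) : Set (E d) := {x | ∀ i, 0 ≤ x i ∧ x i ≤ 2}

/-- row UPM: the theorem of Poincare and Miranda. -/
def SPM : Prop :=
  ∀ (d : ℕ) (g : Fin d → E d → ℝ), (∀ i, Continuous (g i)) →
    (∀ i, ∀ x ∈ Cube d, x i = 0 → 0 < g i x) → (∀ i, ∀ x ∈ Cube d, x i = 2 → g i x < 0) →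
    ∃ x ∈ Cube d, ∀ i, g i x = 0

/-- row UCut: the cut wire theorem. -/
def SCut : Prop :=
  ∀ (d : ℕ) (Z F₀ F₁ : Set (E d)), IsCompact Z → IsClosed F₀ → IsClosed F₁ → Disjoint F₀ F₁ →
    (∀ S ⊆ Z, IsPreconnected S → ∀ a ∈ S, ∀ b ∈ S, a ∈ F₀ → b ∈ F₁ → False) →
    ∃ A B : Set (E d), IsClosed A ∧ IsClosed B ∧ Disjoint A B ∧ Z ⊆ A ∪ B ∧ F₀ ⊆ A ∧ F₁ ⊆ B

/-- row UBump: a continuum has small subcontinua. -/
def SBump : Prop :=
  ∀ (d : ℕ) (K : Set (E d)) (p q : E d) (r : ℝ), IsCompact K → IsPreconnected K → p ∈ K →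
    q ∈ K → 0 < r → r ≤ ‖q - p‖ →
    ∃ S ⊆ K ∩ closedBall p r, IsPreconnected S ∧ p ∈ S ∧ ∃ b ∈ S, b ≠ p

/-- row UHex0: one level set joins two opposite faces. -/
def SHex0 : Prop :=
  ∀ (d : ℕ) (r : E d → ℕ), (∀ j, IsClosed {x | j ≤ r x}) → (∀ x, 1 ≤ r x) → (∀ x, r x ≤ d) →
    ∃ (j : ℕ) (S : Set (E d)), S ⊆ Cube d ∧ IsPreconnected S ∧ (∀ x ∈ S, r x = j) ∧
      ∃ a ∈ S, ∃ b ∈ S, 2 ≤ ‖a - b‖

/-- row UHex: a high level set contains a continuum. -/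
def SHex : Prop :=
  ∀ (d : ℕ) (r : E d → ℕ), 1 ≤ d → (∀ j, IsClosed {x | j ≤ r x}) → (∀ x, 1 ≤ r x) →
    (∀ (j : ℕ) (S : Set (E d)), IsPreconnected S → (∀ x ∈ S, r x = j) →
      ∀ a ∈ S, ∀ b ∈ S, ‖a - b‖ ≤ 1) →
    ∃ (j : ℕ) (S : Set (E d)), d ≤ j ∧ IsPreconnected S ∧ (∀ x ∈ S, r x = j) ∧
      ∃ a ∈ S, ∃ b ∈ S, a ≠ b

/-! ### The first step -/

/-- row ULoc: the span of the labels near a point. -/
def SLoc : Prop :=
  ∀ (d n : ℕ) (O : (Ix n → ℝ) → Set (E d)), Fam O → ∃ L : E d → Submodule ℝ (Ix n → ℝ),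
    (∀ p, ∃ ε : ℝ, 0 < ε ∧ (∀ p' ∈ ball p ε, L p' ≤ L p) ∧
      ∀ v, ∀ y ∈ O v, y ∈ ball p ε → v ∈ L p) ∧
    ∀ w, ∀ y ∈ O w, ∀ p, ‖y - p‖ = 1 → ∀ v ∈ L p, lz w v = 0

/-- the points between two unit spheres. -/
def Btw {d : ℕ} (a b : E d) : Set (E d) := {y | ‖y - a‖ < 1 ∧ 1 < ‖y - b‖}

/-- row UOne: the first step removes `d` dimensions. -/
def SOne : Prop :=
  ∀ (d n : ℕ) (O : (Ix n → ℝ) → Set (E d)), 1 ≤ d → Fam O →
    ∃ (P : Submodule ℝ (Ix n → ℝ)) (a b : E d), d ≤ finrank ℝ P ∧ a ≠ b ∧ ‖a - b‖ ≤ 1 ∧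
      Lab O (Btw a b) (prp P)

/-- row UGeo: the arc between two unit spheres. -/
def SGeo : Prop :=
  ∀ (d : ℕ) (a b : E d), 2 ≤ d → a ≠ b → ‖a - b‖ ≤ 1 → Arcs (Btw a b) (d - 1)

/-- the topological theorem. -/
def STU : Prop :=
  ∀ (d n : ℕ) (O : (Ix n → ℝ) → Set (E d)), 2 ≤ d → n + 4 ≤ 3 * d → ¬ Fam O

theorem sTU_of (h1 : SAlg) (h2 : SPrp) (h0 : SOne) (h7 : SGeo) (h3 : STArc) (h4 : STStart)
    (h5 : STCap) (h6 : STStep) : STU := by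
  intro d n O hd hn hO
  have step : ∀ (k m : ℕ) (B : Set (E d)) (W : Submodule ℝ (Ix n → ℝ)), IsOpen B → Lab O B W →
      Sc k W → Arcs B m → ∃ (B' : Set (E d)) (W' : Submodule ℝ (Ix n → ℝ)), IsOpen B' ∧
        Lab O B' W' ∧ Sc (k + 2) W' ∧ Inv B' m := by
    intro k m B W hB hL hS hA
    obtain ⟨G, g1, g2, g3, g4, g5⟩ := h5 d m B hB hA
    obtain ⟨q, q', ζ, e, B', a1, a2, a3, a4, a5, a6, a7, a8, a9, a10⟩ :=
      h6 d n O B G W hO hB hL g1 g2 g3 g4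
    exact ⟨B', _, a8, a9, h1.1 n k W q q' hS a1 a2 a3 a4 a5, g5 ζ a6 e B' a7 a10⟩
  have main : ∀ j : ℕ, j + 2 ≤ d → ∃ (B : Set (E d)) (W : Submodule ℝ (Ix n → ℝ)), IsOpen B ∧
      Lab O B W ∧ Sc (d + 2 * j + 2) W ∧ Inv B (d - 1 - j) := by
    intro j
    induction j with
    | zero =>
      intro _
      obtain ⟨P, a, b, p1, p2, p3, p4⟩ := h0 d n O (by omega) hO
      have c1 : Continuous fun y : E d => ‖y - a‖ := by fun_prop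
      have c2 : Continuous fun y : E d => ‖y - b‖ := by fun_prop
      exact step d (d - 1) _ _
        ((isOpen_lt c1 continuous_const).inter (isOpen_lt continuous_const c2)) p4
        (h2 n d P p1) (h7 d a b hd p2 p3)
    | succ j ih =>
      intro hj
      obtain ⟨B, W, b1, b2, b3, b4⟩ := ih (by omega)
      have e1 : d - 1 - j = d - 1 - (j + 1) + 1 := by omega
      rw [e1] at b4
      exact step (d + 2 * j + 2) _ B W b1 b2 b3 (h3 d _ B (by omega) b4)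
  obtain ⟨B, W, b1, b2, b3, b4⟩ := main (d - 2) (by omega)
  have e1 : d - 1 - (d - 2) = 1 := by omega
  rw [e1] at b4
  obtain ⟨x, hxB, hx⟩ := hO.dense.inter_open_nonempty B b1 (h4.2 d B b4)
  obtain ⟨w, hw⟩ := mem_iUnion.1 hx
  have := h1.2 n _ W w b3 (b2 w x hw hxB) (hO.pos w ⟨x, hw⟩)
  omega

end Pool.Agent.MP_66cee2_co.U
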