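import Pool.Agent.MP_66cee2_co.TR.Spec

/-
The first step: a continuum on which the span of the nearby labels is constant and large.
-/

namespace Pool.Agent.MP_66cee2_co.U.Tri

open Set Metric Module Filter Topology Pool.Agent.MP_66cee2_co.X Pool.Agent.MP_66cee2_co.D
open Pool.Agent.MP_66cee2_co.TR

theorem cube_compact (d : ℕ) : IsCompact (Cube d) := by
  refine (isCompact_closedBall (0 : E d) (2 * √d)).of_isClosed_subset ?_ fun x hx => ?_
  · have : Cube d = ⋂ i, (fun x : E d => x i) ⁻¹' Icc (0 : ℝ) 2 := by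
      ext x
      simp [Cube]
    rw [this]
    exact isClosed_iInter fun i => isClosed_Icc.preimage (by fun_prop)
  · rw [mem_closedBall_zero_iff, EuclideanSpace.norm_eq]
    have h1 : ∑ i, ‖x i‖ ^ 2 ≤ ∑ _i : Fin d, (4 : ℝ) := Finset.sum_le_sum fun i _ => by
      rw [Real.norm_eq_abs, sq_abs]
      nlinarith [(hx i).1, (hx i).2]
    rw [Finset.sum_const, Finset.card_univ, Fintype.card_fin, nsmul_eq_mul] at h1
    refine Real.sqrt_le_iff.2 ⟨by positivity, ?_⟩
    rw [mul_pow, Real.sq_sqrt (Nat.cast_nonneg d)]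
    linarith

theorem hex0 (hPM : SPM) (hC : SCut) (d : ℕ) (r : E d → ℕ) (hc : ∀ j, IsClosed {x | j ≤ r x})
    (h1 : ∀ x, 1 ≤ r x) (hd : ∀ x, r x ≤ d) :
    ∃ (j : ℕ) (S : Set (E d)), S ⊆ Cube d ∧ IsPreconnected S ∧ (∀ x ∈ S, r x = j) ∧
      ∃ a ∈ S, ∃ b ∈ S, 2 ≤ ‖a - b‖ := by
  classical
  by_contra hno
  have key : ∀ k : ℕ, k ≤ d → ∃ u : Fin d → E d → ℝ, (∀ i, Sgn i (u i)) ∧
      ∀ x ∈ Cube d, (∀ i : Fin d, d - k ≤ i.val → u i x = 0) → r x ≤ d - k := by
    intro k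
    induction k with
    | zero =>
      intro _
      refine ⟨fun i x => 1 - x i, fun i => ⟨by fun_prop, fun x hx => ?_, fun x hx => ?_⟩,
        fun x _ _ => hd x⟩
      · simp [hx]
      · simp only [hx]
        norm_num
    | succ k ih =>
      intro hk
      obtain ⟨u, u1, u2⟩ := ih (by omega)
      let i₀ : Fin d := ⟨d - (k + 1), by omega⟩
      have c1 : IsClosed {x : E d | ∀ i : Fin d, d - k ≤ i.val → u i x = 0} := by
        simp only [ofPred_forall]
        exact isClosed_iInter fun i => isClosed_iInter fun _ =>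
          isClosed_eq (u1 i).1 continuous_const
      obtain ⟨v, v1, v2⟩ := hC d i₀ _ (((cube_compact d).inter_right c1).inter_right (hc (d - k)))
        (fun K hK hp a ha b hb a0 b2 => hno ⟨d - k, K, fun x hx => (hK hx).1.1, hp,
          fun x hx => le_antisymm (u2 x (hK hx).1.1 (hK hx).1.2) (hK hx).2, a, ha, b, hb, by
            have := PiLp.norm_apply_le (a - b) i₀
            rw [PiLp.sub_apply, a0, b2] at this
            simpa using this⟩)
      refine ⟨Function.update u i₀ v, fun i => ?_, fun x hx h => ?_⟩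
      · by_cases e : i = i₀
        · rw [e, Function.update_self]
          exact v1
        · rw [Function.update_of_ne e]
          exact u1 i
      · by_contra hlt
        refine v2 x ⟨⟨hx, fun i hi => ?_⟩, ?_⟩ ?_
        · have e : i ≠ i₀ := fun e => by
            have : i.val = d - (k + 1) := congrArg Fin.val e
            omega
          have := h i (by omega)
          rwa [Function.update_of_ne e] at this
        · show d - k ≤ r x
          omega
        · have := h i₀ le_rfl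
          rwa [Function.update_self] at this
  obtain ⟨u, u1, u2⟩ := key d le_rfl
  obtain ⟨x, hx, x0⟩ := hPM d u u1
  have := u2 x hx fun i _ => x0 i
  have := h1 x
  omega

theorem hex (hPM : SPM) (hC : SCut) (hB : SBump) (d : ℕ) (r : E d → ℕ) (hd : 1 ≤ d)
    (hc : ∀ j, IsClosed {x | j ≤ r x}) (h1 : ∀ x, 1 ≤ r x)
    (hs : ∀ (j : ℕ) (S : Set (E d)), IsPreconnected S → (∀ x ∈ S, r x = j) →
      ∀ a ∈ S, ∀ b ∈ S, ‖a - b‖ ≤ 1) :
    ∃ (j : ℕ) (S : Set (E d)), d ≤ j ∧ IsPreconnected S ∧ (∀ x ∈ S, r x = j) ∧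
      ∃ a ∈ S, ∃ b ∈ S, a ≠ b ∧ ‖a - b‖ ≤ 1 / 10 := by
  obtain ⟨j, S, s1, s2, s3, a, ha, b, hb, hab⟩ := hex0 hPM hC d (fun x => min (r x) d)
    (fun j => by
      by_cases h : j ≤ d
      · simpa [h] using hc j
      · simp [h]) (fun x => le_min (h1 x) hd) fun x => min_le_right _ _
  have hj : ∀ x ∈ S, d ≤ r x := by
    by_contra hno
    push Not at hno
    obtain ⟨x, hx, hlt⟩ := hno
    have e := s3 x hx
    have := hs j S s2 (fun y hy => by
      have := s3 y hy
      omega) a ha b hb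
    linarith
  have k1 : IsCompact (closure S) :=
    (cube_compact d).of_isClosed_subset isClosed_closure
      (closure_minimal s1 (cube_compact d).isClosed)
  have k2 : ∀ x ∈ closure S, d ≤ r x := fun x hx => closure_minimal hj (hc d) hx
  obtain ⟨p, hp, pm⟩ : ∃ p ∈ closure S, ∀ x ∈ closure S, r p ≤ r x :=
    ⟨Function.argminOn r (closure S) ⟨a, subset_closure ha⟩, Function.argminOn_mem _ _ _,
      fun x hx => Function.argminOn_le _ _ hx⟩
  obtain ⟨ε, e0, e1⟩ := Metric.isOpen_iff.1 (hc (r p + 1)).isOpen_compl p (by simp)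
  obtain ⟨q, hq, pq⟩ : ∃ q ∈ closure S, p ≠ q := by
    by_cases h : p = a
    · refine ⟨b, subset_closure hb, fun e => ?_⟩
      rw [← h, ← e, sub_self, norm_zero] at hab
      linarith
    · exact ⟨a, subset_closure ha, h⟩
  obtain ⟨K, K1, K2, x, hx, y, hy, xy⟩ := hB d _ p q (min ε (1 / 20)) k1 s2.closure hp hq pq
    (lt_min e0 (by norm_num))
  refine ⟨r p, K, k2 p hp, K2, fun z hz => le_antisymm ?_ (pm z (K1 hz).1), x, hx, y, hy, xy, ?_⟩
  · have := e1 (ball_subset_ball (min_le_left _ _) (K1 hz).2)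
    simp only [mem_compl_iff, mem_ofPred_eq] at this
    omega
  · have h2 := ball_subset_ball (min_le_right _ _) (K1 hx).2
    have h3 := ball_subset_ball (min_le_right _ _) (K1 hy).2
    rw [mem_ball] at h2 h3
    rw [← dist_eq_norm]
    linarith [dist_triangle_right x y p]

theorem loc {d n : ℕ} {O : (Ix n → ℝ) → Set (E d)} (hO : Fam O) :
    ∃ L : E d → Submodule ℝ (Ix n → ℝ),
      (∀ p, ∃ ε : ℝ, 0 < ε ∧ (∀ p' ∈ ball p ε, L p' ≤ L p) ∧
        ∀ v, ∀ y ∈ O v, y ∈ ball p ε → v ∈ L p) ∧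
      ∀ w, ∀ y ∈ O w, ∀ p, ‖y - p‖ = 1 → ∀ v ∈ L p, lz w v = 0 := by
  let Λ : E d → ℝ → Submodule ℝ (Ix n → ℝ) := fun p ε =>
    Submodule.span ℝ {v | ∃ y ∈ O v, y ∈ ball p ε}
  have mono : ∀ p p' ε ε', ball p ε ⊆ ball p' ε' → Λ p ε ≤ Λ p' ε' := fun p p' ε ε' h =>
    Submodule.span_mono fun v ⟨y, hy, hb⟩ => ⟨y, hy, h hb⟩
  have ex : ∀ p, ∃ ε : ℝ, 0 < ε ∧ ∀ δ : ℝ, 0 < δ → Λ p ε ≤ Λ p δ := by
    intro p
    obtain ⟨ε, e0, em⟩ : ∃ ε ∈ Ioi (0 : ℝ), ∀ δ ∈ Ioi (0 : ℝ),
        finrank ℝ (Λ p ε) ≤ finrank ℝ (Λ p δ) :=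
      ⟨Function.argminOn (fun ε => finrank ℝ (Λ p ε)) (Ioi 0) ⟨1, by simp⟩,
        Function.argminOn_mem _ _ _,
        fun x hx => Function.argminOn_le (fun ε => finrank ℝ (Λ p ε)) _ hx⟩
    refine ⟨ε, e0, fun δ hδ => ?_⟩
    have e := Submodule.eq_of_le_of_finrank_le
      (mono p p (min ε δ) ε (ball_subset_ball (min_le_left _ _))) (em _ (lt_min e0 hδ))
    rw [← e]
    exact mono p p _ _ (ball_subset_ball (min_le_right _ _))
  choose ε e0 e1 using ex
  refine ⟨fun p => Λ p (ε p), fun p => ⟨ε p, e0 p, fun p' hp' => ?_, fun v y hy hb =>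
    Submodule.subset_span ⟨y, hy, hb⟩⟩, fun w y hy p hp v hv => ?_⟩
  · obtain ⟨δ, d0, d1⟩ := Metric.isOpen_iff.1 isOpen_ball p' hp'
    exact (e1 p' δ d0).trans (mono _ _ _ _ d1)
  · obtain ⟨δ, d0, d1⟩ := Metric.isOpen_iff.1 (hO.opn w) y hy
    have h : Λ p δ ≤ perp (Submodule.span ℝ {w}) := by
      refine Submodule.span_le.2 ?_
      rintro v ⟨z, hz, hb⟩ u hu
      obtain ⟨c, rfl⟩ := Submodule.mem_span_singleton.1 hu
      have h1 : z + (y - p) ∈ O w := d1 (by
        rw [mem_ball_iff_norm] at hb ⊢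
        rwa [show z + (y - p) - y = z - p by abel])
      have h2 := hO.orth w v _ z h1 hz (by rwa [add_sub_cancel_left])
      rw [lz_comm]
      exact (smul_dotProduct c w _).trans ((congrArg _ h2).trans (smul_zero c))
    rw [lz_comm]
    exact h (e1 p δ d0 hv) w (Submodule.mem_span_singleton_self w)

theorem sTri (hPM : SPM) (hC : SCut) (hB : SBump) : STri := by
  intro d n O hd hO
  obtain ⟨L, l1, l2⟩ := loc hO
  have lab : ∀ p (δ : ℝ), 0 < δ → ∃ v, ∃ y ∈ O v, y ∈ ball p δ ∧ v ∈ L p := by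
    intro p δ hδ
    obtain ⟨ε, e0, -, e2⟩ := l1 p
    obtain ⟨y, hy, hx⟩ := hO.dense.inter_open_nonempty (ball p (min ε δ)) isOpen_ball
      (nonempty_ball.2 (lt_min e0 hδ))
    obtain ⟨v, hv⟩ := mem_iUnion.1 hx
    exact ⟨v, y, hv, ball_subset_ball (min_le_right _ _) hy,
      e2 v y hv (ball_subset_ball (min_le_left _ _) hy)⟩
  have cst : ∀ (j : ℕ) (S : Set (E d)), IsPreconnected S → (∀ x ∈ S, finrank ℝ (L x) = j) →
      ∀ a ∈ S, ∀ b ∈ S, L a = L b := by
    intro j S hS hj a ha b hb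
    refine hS.induction₂' (fun x y => L x = L y) (fun x hx => ?_)
      (fun _ _ _ _ _ _ => Eq.trans) ha hb
    obtain ⟨ε, e0, e1, -⟩ := l1 x
    filter_upwards [mem_nhdsWithin_of_mem_nhds (ball_mem_nhds x e0), self_mem_nhdsWithin]
      with y hy hyS
    have := Submodule.eq_of_le_of_finrank_le (e1 y hy) ((hj x hx).trans (hj y hyS).symm).le
    exact ⟨this.symm, this⟩
  have ivt : ∀ (j : ℕ) (S : Set (E d)), IsPreconnected S → (∀ x ∈ S, finrank ℝ (L x) = j) →
      ∀ a ∈ S, ∀ b ∈ S, Lab O (Lune a b) (perp (L b)) := by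
    intro j S hS hj a ha b hb w y hy hl v hv
    have c1 : Continuous fun p : E d => ‖y - p‖ := by fun_prop
    obtain ⟨p, hp, e⟩ := hS.intermediate_value hb ha c1.continuousOn ⟨hl.1.le, hl.2.le⟩
    exact l2 w y hy p e v (cst j S hS hj b hb p hp ▸ hv)
  obtain ⟨j, S, s1, s2, s3, a, ha, b, hb, ab, hab⟩ := hex hPM hC hB d
    (fun x => finrank ℝ (L x)) hd (fun j => by
      rw [← isOpen_compl_iff, Metric.isOpen_iff]
      intro x hx
      obtain ⟨ε, e0, e1, -⟩ := l1 x
      exact ⟨ε, e0, fun y hy h => hx (le_trans h (Submodule.finrank_mono (e1 y hy)))⟩)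
    (fun x => by
      obtain ⟨v, y, hy, -, hv⟩ := lab x 1 one_pos
      have h0 := hO.pos v ⟨y, hy⟩
      refine Nat.one_le_iff_ne_zero.2 fun e => ?_
      rw [Submodule.finrank_eq_zero.1 e, Submodule.mem_bot] at hv
      rw [hv] at h0
      exact h0.ne' (zero_dotProduct _))
    (fun j S hS hj a ha b hb => by
      by_contra hlt
      push Not at hlt
      obtain ⟨v, y, hy, hb', hv⟩ := lab b (min 1 (‖a - b‖ - 1)) (lt_min one_pos (by linarith))
      rw [mem_ball_iff_norm, lt_min_iff] at hb'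
      have h1 : 1 < ‖y - a‖ := by
        have := norm_sub_le (y - b) (y - a)
        rw [show y - b - (y - a) = a - b by abel] at this
        linarith [hb'.2]
      exact (hO.pos v ⟨y, hy⟩).ne' (ivt j S hS hj a ha b hb v y hy ⟨hb'.1, h1⟩ v hv))
  exact ⟨a, b, L b, ab, hab, s1.trans (s3 b hb).ge, ivt j S s2 s3 a ha b hb⟩

end Pool.Agent.MP_66cee2_co.U.Tri
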